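import Mathlib

set_option autoImplicit false

namespace Pool.Agent.Results.MP_d96af6_lc.NotLocallyFinite

/-- Intuitionistic propositional formulas in the variables `p_0, …, p_{k-1}`. -/
inductive Fm (k : ℕ) : Type
  | var (i : Fin k) : Fm k
  | bot : Fm k
  | and (a b : Fm k) : Fm k
  | or (a b : Fm k) : Fm k
  | imp (a b : Fm k) : Fm k

/-- `a ↔ b` as the conjunction of two implications. -/
def Fm.iff {k : ℕ} (a b : Fm k) : Fm k := .and (.imp a b) (.imp b a)

/-- Kripke forcing on a partial order. -/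
def Forces {k : ℕ} {W : Type} [PartialOrder W] (V : Fin k → Set W) : W → Fm k → Prop
  | x, .var i => x ∈ V i
  | _, .bot => False
  | x, .and a b => Forces V x a ∧ Forces V x b
  | x, .or a b => Forces V x a ∨ Forces V x b
  | x, .imp a b => ∀ y, x ≤ y → Forces V y a → Forces V y b

/-- `φ` belongs to the intermediate logic of `W`: it holds at every point under every valuation
by upward closed sets. -/
def InILog {k : ℕ} (W : Type) [PartialOrder W] (φ : Fm k) : Prop :=
  ∀ V : Fin k → Set W, (∀ i, IsUpperSet (V i)) → ∀ x, Forces V x φ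

def u : ℕ → Fin 3 → Fm 3
  | 0, i => .var i
  | k + 1, i => .or (.imp (u k (i + 2)) (.and (u k 0) (u k 1))) (.or (u k 0) (.or (u k 1) (u k 2)))

def val (m N : ℕ) : Fin 3 → Set (Fin (m + 2) → ℕ) :=
  fun i => {a | N < a 0 + a 1 ∨ (a 0 + a 1 = N ∧ a 0 % 3 = i.val)}

theorem val_upper (m N : ℕ) (i : Fin 3) : IsUpperSet (val m N i) := by
  intro a b hab h
  have h0 : a 0 ≤ b 0 := hab 0
  have h1 : a 1 ≤ b 1 := hab 1
  simp only [val, Set.mem_ofPred_eq] at *
  omega

theorem exists_above {m : ℕ} (a : Fin (m + 2) → ℕ) (x y : ℕ) (hx : a 0 ≤ x) (hy : a 1 ≤ y) :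
    ∃ b : Fin (m + 2) → ℕ, a ≤ b ∧ b 0 = x ∧ b 1 = y := by
  refine ⟨Function.update (Function.update a 0 x) 1 y, fun i => ?_, by simp, by simp⟩
  by_cases h1 : i = 1
  · subst h1; simpa using hy
  · rw [Function.update_of_ne h1]
    by_cases h0 : i = 0
    · subst h0; simpa using hx
    · rw [Function.update_of_ne h0]

theorem truth (m N : ℕ) : ∀ (k : ℕ) (i : Fin 3) (a : Fin (m + 2) → ℕ),
    Forces (val m N) a (u k i) ↔
      (N < a 0 + a 1 + k ∨ (a 0 + a 1 + k = N ∧ a 0 % 3 = i.val))
  | 0, i, a => Iff.rfl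
  | k + 1, i, a => by
    have e2 : ((i + 2 : Fin 3) : ℕ) = (i.val + 2) % 3 := by rw [Fin.val_add]; rfl
    have hi := i.isLt
    simp only [u, Forces, truth m N k, e2, Fin.val_zero, Fin.val_one, Fin.val_two]
    constructor
    · rintro (h | h)
      · by_contra hn
        have : ∃ t, a 0 + t + a 1 + k ≤ N ∧ (a 0 + t) % 3 = (i.val + 2) % 3 := by
          by_cases c0 : a 0 % 3 = (i.val + 2) % 3
          · exact ⟨0, by omega, by omega⟩
          by_cases c1 : (a 0 + 1) % 3 = (i.val + 2) % 3
          · exact ⟨1, by omega, by omega⟩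
          · exact ⟨2, by omega, by omega⟩
        obtain ⟨t, h1, h2⟩ := this
        obtain ⟨b, hb, b0, b1⟩ := exists_above a (a 0 + t) (N - k - (a 0 + t)) (by omega)
          (by omega)
        have := h b hb (by omega)
        omega
      · omega
    · rintro (h | h)
      · right; omega
      · left
        intro b hb hp
        have h0 : a 0 ≤ b 0 := hb 0
        have h1 : a 1 ≤ b 1 := hb 1
        omega

theorem not_imp (m : ℕ) {k l : ℕ} (h : k < l) :
    ¬ InILog (Fin (m + 2) → ℕ) (.imp (u l 0) (u k 0)) := by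
  intro H
  have := H (val m l) (val_upper m l) 0 0 le_rfl
  simp only [truth, Pi.zero_apply] at this
  omega

/-- For every `n ≥ 2` there are infinitely many formulas in three variables that are pairwise
non-equivalent modulo the intermediate logic of `ω^n`. -/
theorem result (n : ℕ) (hn : 2 ≤ n) :
    ∃ φ : ℕ → Fm 3, ∀ i j, i ≠ j → ¬ InILog (Fin n → ℕ) ((φ i).iff (φ j)) := by
  obtain ⟨m, rfl⟩ : ∃ m, n = m + 2 := ⟨n - 2, by omega⟩
  refine ⟨fun k => u k 0, fun i j hij H => ?_⟩
  rcases lt_or_gt_of_ne hij with h | h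
  · exact not_imp m h (fun V hV x => (H V hV x).2)
  · exact not_imp m h (fun V hV x => (H V hV x).1)

end Pool.Agent.Results.MP_d96af6_lc.NotLocallyFinite
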